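import Pool.Agent.H45.S7.Defs

/-! S7-A1: the rational parametrisation of the sphere. -/

set_option autoImplicit false

namespace Pool.Agent.H45.S7

open Finset

namespace A1

theorem normsq (p : E3) : ‖p‖ ^ 2 = p 0 ^ 2 + p 1 ^ 2 + p 2 ^ 2 := by
  rw [EuclideanSpace.norm_eq, Real.sq_sqrt (Finset.sum_nonneg fun i _ => sq_nonneg _),
    Fin.sum_univ_three]
  simp only [Real.norm_eq_abs, sq_abs]

theorem F0 (u v t : ℝ) : (F u v t) 0 = 2 * u * t / (u ^ 2 + v ^ 2 + t ^ 2) := by simp [F]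
theorem F1 (u v t : ℝ) : (F u v t) 1 = 2 * v * t / (u ^ 2 + v ^ 2 + t ^ 2) := by simp [F]
theorem F2 (u v t : ℝ) : (F u v t) 2 = (u ^ 2 + v ^ 2 - t ^ 2) / (u ^ 2 + v ^ 2 + t ^ 2) := by
  simp [F]

theorem norm_F {u v t : ℝ} (h : 0 < u ^ 2 + v ^ 2 + t ^ 2) : ‖F u v t‖ = 1 := by
  have h1 : ‖F u v t‖ ^ 2 = 1 := by
    rw [normsq, F0, F1, F2]
    field_simp
    ring
  have h2 : 0 ≤ ‖F u v t‖ := norm_nonneg _
  nlinarith

theorem abs_le_one_of {a s : ℝ} (h : a ^ 2 ≤ 1) : |a| ≤ 1 := by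
  rw [abs_le]
  constructor <;> nlinarith

theorem surj (p : E3) (hp : ‖p‖ = 1) : ∃ u v t : ℝ, |u| ≤ 1 ∧ |v| ≤ 1 ∧ |t| ≤ 1 ∧
    u ^ 2 + v ^ 2 + t ^ 2 = 1 ∧ F u v t = p := by
  have h := normsq p
  rw [hp, one_pow] at h
  set x := p 0 with hx
  set y := p 1 with hy
  set z := p 2 with hz
  have hz1 : z ≤ 1 := by nlinarith [sq_nonneg x, sq_nonneg y]
  rcases eq_or_lt_of_le hz1 with h1 | h1
  · have hx0 : x = 0 := by
      rw [h1] at h
      nlinarith [sq_nonneg x, sq_nonneg y]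
    have hy0 : y = 0 := by
      rw [h1] at h
      nlinarith [sq_nonneg x, sq_nonneg y]
    refine ⟨1, 0, 0, by simp, by simp, by simp, by norm_num, ?_⟩
    ext i
    fin_cases i
    · show (F 1 0 0) 0 = p 0
      rw [F0, ← hx, hx0]; norm_num
    · show (F 1 0 0) 1 = p 1
      rw [F1, ← hy, hy0]; norm_num
    · show (F 1 0 0) 2 = p 2
      rw [F2, ← hz, h1]; norm_num
  · set t := Real.sqrt ((1 - z) / 2) with ht
    have ht2 : t ^ 2 = (1 - z) / 2 := Real.sq_sqrt (by linarith)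
    have ht0 : 0 < t := Real.sqrt_pos.2 (by linarith)
    have hsum : (x / (2 * t)) ^ 2 + (y / (2 * t)) ^ 2 + t ^ 2 = 1 := by
      have e : (x / (2 * t)) ^ 2 + (y / (2 * t)) ^ 2 = (x ^ 2 + y ^ 2) / (4 * t ^ 2) := by
        field_simp
        ring
      rw [e, ht2]
      have h3 : 4 * ((1 - z) / 2) ≠ 0 := by
        have : 0 < 4 * ((1 - z) / 2) := by linarith
        exact this.ne'
      have h4 : x ^ 2 + y ^ 2 = (1 - z) * (1 + z) := by linarith [h]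
      rw [h4]
      have h5 : (1 - z) ≠ 0 := by linarith
      field_simp
      ring
    refine ⟨x / (2 * t), y / (2 * t), t, ?_, ?_, ?_, hsum, ?_⟩
    · exact abs_le_one_of (s := 0) (by nlinarith [sq_nonneg (x / (2 * t)), sq_nonneg (y / (2 * t)), sq_nonneg t])
    · exact abs_le_one_of (s := 0) (by nlinarith [sq_nonneg (x / (2 * t)), sq_nonneg (y / (2 * t)), sq_nonneg t])
    · exact abs_le_one_of (s := 0) (by nlinarith [sq_nonneg (x / (2 * t)), sq_nonneg (y / (2 * t)), sq_nonneg t])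
    · ext i
      fin_cases i
      · show (F (x / (2 * t)) (y / (2 * t)) t) 0 = p 0
        rw [F0, hsum, ← hx]
        field_simp
      · show (F (x / (2 * t)) (y / (2 * t)) t) 1 = p 1
        rw [F1, hsum, ← hy]
        field_simp
      · show (F (x / (2 * t)) (y / (2 * t)) t) 2 = p 2
        rw [F2, hsum, ← hz]
        have e : (x / (2 * t)) ^ 2 + (y / (2 * t)) ^ 2 = 1 - t ^ 2 := by linarith
        rw [e, ht2]
        ring

theorem sq_diff {u u' κ : ℝ} (hu : |u| ≤ 1) (hκ : κ ≤ 1 / 14) (h : |u' - u| ≤ κ) :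
    |u' ^ 2 - u ^ 2| ≤ 29 / 14 * κ := by
  have h0 : 0 ≤ κ := (abs_nonneg _).trans h
  have e : u' ^ 2 - u ^ 2 = (u' - u) * (u' + u) := by ring
  have h1 : |u' + u| ≤ 29 / 14 := by
    have e1 : u' + u = (u' - u) + 2 * u := by ring
    rw [e1]
    refine (abs_add_le _ _).trans ?_
    rw [abs_mul, abs_two]
    linarith
  rw [e, abs_mul, mul_comm]
  exact mul_le_mul h1 h (abs_nonneg _) (by norm_num)

theorem prod_diff {u t u' t' κ : ℝ} (hu : |u| ≤ 1) (ht : |t| ≤ 1) (hκ : κ ≤ 1 / 14)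
    (h : |u' - u| ≤ κ) (h' : |t' - t| ≤ κ) : |u' * t' - u * t| ≤ 29 / 14 * κ := by
  have h0 : 0 ≤ κ := (abs_nonneg _).trans h
  have e : u' * t' - u * t = (u' - u) * t' + u * (t' - t) := by ring
  have h1 : |t'| ≤ 15 / 14 := by
    have e1 : t' = (t' - t) + t := by ring
    rw [e1]
    refine (abs_add_le _ _).trans ?_
    linarith
  rw [e]
  refine (abs_add_le _ _).trans ?_
  rw [abs_mul, abs_mul]
  have h2 : |u' - u| * |t'| ≤ κ * (15 / 14) := mul_le_mul h h1 (abs_nonneg _) h0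
  have h3 : |u| * |t' - t| ≤ 1 * κ := mul_le_mul hu h' (abs_nonneg _) zero_le_one
  linarith

theorem quot_bd {N' N D κ : ℝ} (h0 : 0 ≤ κ) (hD : 1 / 2 ≤ D) (hD1 : |D - 1| ≤ 7 * κ) (hN : |N| ≤ 1)
    (h : |N' - N| ≤ 7 * κ) : |N' / D - N| ≤ 28 * κ := by
  have hDp : 0 < D := by linarith
  have e : N' / D - N = ((N' - N) + N * (1 - D)) / D := by
    field_simp
    ring
  rw [e, abs_div, abs_of_pos hDp, div_le_iff₀ hDp]
  have h1 : |N * (1 - D)| ≤ 7 * κ := by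
    rw [abs_mul, abs_sub_comm 1 D]
    calc |N| * |D - 1| ≤ 1 * (7 * κ) := mul_le_mul hN hD1 (abs_nonneg _) zero_le_one
      _ = _ := one_mul _
  have h2 := abs_add_le (N' - N) (N * (1 - D))
  nlinarith

theorem lip (u v t u' v' t' κ : ℝ) (hs : u ^ 2 + v ^ 2 + t ^ 2 = 1) (hκ : κ ≤ 1 / 14)
    (hu : |u' - u| ≤ κ) (hv : |v' - v| ≤ κ) (ht : |t' - t| ≤ κ) :
    ‖F u' v' t'‖ = 1 ∧ ‖F u' v' t' - F u v t‖ ≤ 100 * κ := by
  have h0 : 0 ≤ κ := (abs_nonneg _).trans hu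
  have u1 : |u| ≤ 1 := abs_le_one_of (s := 0) (by nlinarith [sq_nonneg u, sq_nonneg v, sq_nonneg t])
  have v1 : |v| ≤ 1 := abs_le_one_of (s := 0) (by nlinarith [sq_nonneg u, sq_nonneg v, sq_nonneg t])
  have t1 : |t| ≤ 1 := abs_le_one_of (s := 0) (by nlinarith [sq_nonneg u, sq_nonneg v, sq_nonneg t])
  have du := abs_le.1 (sq_diff u1 hκ hu)
  have dv := abs_le.1 (sq_diff v1 hκ hv)
  have dt := abs_le.1 (sq_diff t1 hκ ht)
  have hD1 : |u' ^ 2 + v' ^ 2 + t' ^ 2 - 1| ≤ 7 * κ := by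
    rw [abs_le]
    constructor <;> linarith [du.1, du.2, dv.1, dv.2, dt.1, dt.2]
  have hD2 := abs_le.1 hD1
  have hD : 1 / 2 ≤ u' ^ 2 + v' ^ 2 + t' ^ 2 := by linarith [hD2.1]
  have hDp : 0 < u' ^ 2 + v' ^ 2 + t' ^ 2 := by linarith
  refine ⟨norm_F hDp, ?_⟩
  have a0 : |(F u' v' t') 0 - (F u v t) 0| ≤ 28 * κ := by
    rw [F0, F0, hs, div_one]
    have hp := abs_le.1 (prod_diff u1 t1 hκ hu ht)
    refine quot_bd h0 hD hD1 ?_ ?_
    · rw [abs_le]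
      constructor <;> nlinarith [sq_nonneg (u + t), sq_nonneg (u - t), sq_nonneg v]
    · rw [abs_le]
      constructor <;> linarith [hp.1, hp.2]
  have a1 : |(F u' v' t') 1 - (F u v t) 1| ≤ 28 * κ := by
    rw [F1, F1, hs, div_one]
    have hp := abs_le.1 (prod_diff v1 t1 hκ hv ht)
    refine quot_bd h0 hD hD1 ?_ ?_
    · rw [abs_le]
      constructor <;> nlinarith [sq_nonneg (v + t), sq_nonneg (v - t), sq_nonneg u]
    · rw [abs_le]
      constructor <;> linarith [hp.1, hp.2]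
  have a2 : |(F u' v' t') 2 - (F u v t) 2| ≤ 28 * κ := by
    rw [F2, F2, hs, div_one]
    refine quot_bd h0 hD hD1 ?_ ?_
    · rw [abs_le]
      constructor <;> nlinarith [sq_nonneg u, sq_nonneg v, sq_nonneg t]
    · rw [abs_le]
      constructor <;> linarith [du.1, du.2, dv.1, dv.2, dt.1, dt.2]
  have hn : ‖F u' v' t' - F u v t‖ ^ 2 ≤ (100 * κ) ^ 2 := by
    rw [normsq]
    have b0 : ((F u' v' t' - F u v t) 0) ^ 2 ≤ (28 * κ) ^ 2 := by
      show ((F u' v' t') 0 - (F u v t) 0) ^ 2 ≤ _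
      exact sq_le_sq' (abs_le.1 a0).1 (abs_le.1 a0).2
    have b1 : ((F u' v' t' - F u v t) 1) ^ 2 ≤ (28 * κ) ^ 2 := by
      show ((F u' v' t') 1 - (F u v t) 1) ^ 2 ≤ _
      exact sq_le_sq' (abs_le.1 a1).1 (abs_le.1 a1).2
    have b2 : ((F u' v' t' - F u v t) 2) ^ 2 ≤ (28 * κ) ^ 2 := by
      show ((F u' v' t') 2 - (F u v t) 2) ^ 2 ≤ _
      exact sq_le_sq' (abs_le.1 a2).1 (abs_le.1 a2).2
    nlinarith [sq_nonneg κ]
  exact le_of_sq_le_sq hn (by positivity)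

end A1

theorem a1 : S_A1 := ⟨A1.surj, fun u v t u' v' t' κ hs hκ hu hv ht =>
  A1.lip u v t u' v' t' κ hs hκ hu hv ht⟩

end Pool.Agent.H45.S7
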