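import Pool.Agent.H45.S7.Defs

set_option autoImplicit false

namespace Pool.Agent.H45.S7

open Finset

noncomputable section

/-- every term is at least `-log 2` -/
theorem a2_term {N : ℕ} (x : Fin N → E3) (hx : IsConf x) (i j : Fin N) :
    0 ≤ (if i = j then 0 else -Real.log ‖x i - x j‖) + Real.log 2 := by
  have hl : 0 ≤ Real.log 2 := Real.log_nonneg (by norm_num)
  split_ifs with h
  · simpa using hl
  · have h1 : 0 < ‖x i - x j‖ := norm_pos_iff.mpr (sub_ne_zero.mpr fun h2 => h (hx.2 h2))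
    have h2 : ‖x i - x j‖ ≤ 2 := by
      calc ‖x i - x j‖ ≤ ‖x i‖ + ‖x j‖ := norm_sub_le _ _
        _ = 2 := by rw [hx.1 i, hx.1 j]; norm_num
    have := Real.log_le_log h1 h2
    linarith

theorem a2_sum {N : ℕ} (x : Fin N → E3) :
    ∑ i, ∑ j, ((if i = j then 0 else -Real.log ‖x i - x j‖) + Real.log 2) =
      energy x + N ^ 2 * Real.log 2 := by
  unfold energy
  simp only [Finset.sum_add_distrib, Finset.sum_const, Finset.card_univ, Fintype.card_fin,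
    nsmul_eq_mul]
  ring

theorem a2_lower {N : ℕ} (x : Fin N → E3) (hx : IsConf x) : -(N ^ 2 * Real.log 2) ≤ energy x := by
  have h := a2_sum x
  have h2 : 0 ≤ ∑ i, ∑ j, ((if i = j then 0 else -Real.log ‖x i - x j‖) + Real.log 2) :=
    Finset.sum_nonneg fun i _ => Finset.sum_nonneg fun j _ => a2_term x hx i j
  linarith

theorem a2_pair {N : ℕ} (x : Fin N → E3) (hx : IsConf x) (i j : Fin N) (hij : i ≠ j) :
    -(2 * Real.log ‖x i - x j‖) ≤ energy x + N ^ 2 * Real.log 2 := by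
  rw [← a2_sum x]
  have hl : 0 ≤ Real.log 2 := Real.log_nonneg (by norm_num)
  set g : Fin N → Fin N → ℝ := fun i j => (if i = j then 0 else -Real.log ‖x i - x j‖) + Real.log 2
  have hg : ∀ a b, 0 ≤ g a b := fun a b => a2_term x hx a b
  have h1 : g i j ≤ ∑ b, g i b := Finset.single_le_sum (fun b _ => hg i b) (Finset.mem_univ j)
  have h2 : g j i ≤ ∑ b, g j b := Finset.single_le_sum (fun b _ => hg j b) (Finset.mem_univ i)
  have h3 : ∑ a ∈ ({i, j} : Finset (Fin N)), ∑ b, g a b ≤ ∑ a, ∑ b, g a b :=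
    Finset.sum_le_sum_of_subset_of_nonneg (Finset.subset_univ _)
      fun a _ _ => Finset.sum_nonneg fun b _ => hg a b
  rw [Finset.sum_pair hij] at h3
  have h4 : g i j = -Real.log ‖x i - x j‖ + Real.log 2 := by simp [g, hij]
  have h5 : g j i = -Real.log ‖x i - x j‖ + Real.log 2 := by
    simp only [g, if_neg (Ne.symm hij)]
    rw [norm_sub_rev]
  calc -(2 * Real.log ‖x i - x j‖) ≤ g i j + g j i := by rw [h4, h5]; linarith
    _ ≤ (∑ b, g i b) + ∑ b, g j b := add_le_add h1 h2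
    _ ≤ _ := h3

/-- the explicit configuration -/
def pt (N : ℕ) (k : Fin N) : E3 := F ((k : ℕ) : ℝ) 0 1

theorem pt_norm {N : ℕ} (k : Fin N) : ‖pt N k‖ = 1 := by
  have h : ‖pt N k‖ ^ 2 = 1 := by
    rw [EuclideanSpace.norm_sq_eq, Fin.sum_univ_three]
    simp only [pt, F, Real.norm_eq_abs, sq_abs]
    have h1 : (((k : ℕ) : ℝ) ^ 2 + 0 ^ 2 + 1 ^ 2) ≠ 0 := by positivity
    simp
    have h2 : (((k : ℕ) : ℝ) ^ 2 + 1) ≠ 0 := by positivity
    field_simp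
    ring
  have h0 : 0 ≤ ‖pt N k‖ := norm_nonneg _
  nlinarith [sq_nonneg (‖pt N k‖ - 1), sq_nonneg (‖pt N k‖ + 1)]

theorem pt_dist {N : ℕ} (j k : Fin N) : ‖pt N j - pt N k‖ ^ 2 =
    4 * (((j : ℕ) : ℝ) - ((k : ℕ) : ℝ)) ^ 2 /
      ((((j : ℕ) : ℝ) ^ 2 + 1) * (((k : ℕ) : ℝ) ^ 2 + 1)) := by
  rw [EuclideanSpace.norm_sq_eq, Fin.sum_univ_three]
  simp only [pt, F, Real.norm_eq_abs, sq_abs]
  have h1 : (((k : ℕ) : ℝ) ^ 2 + 1) ≠ 0 := by positivity
  have h2 : (((j : ℕ) : ℝ) ^ 2 + 1) ≠ 0 := by positivity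
  simp
  field_simp
  ring

theorem pt_term {N : ℕ} (hN : 2 ≤ N) (j k : Fin N) :
    (if j = k then 0 else -Real.log ‖pt N j - pt N k‖) ≤ 2 * (N : ℝ) := by
  have hN' : (2 : ℝ) ≤ N := by exact_mod_cast hN
  split_ifs with h
  · linarith
  · have hsq := pt_dist j k
    have hne : (1 : ℝ) ≤ (((j : ℕ) : ℝ) - ((k : ℕ) : ℝ)) ^ 2 := by
      have h1 : ((j : ℕ) : ℤ) - ((k : ℕ) : ℤ) ≠ 0 := by
        intro h2
        apply h
        apply Fin.ext
        omega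
      have h2 : (1 : ℤ) ≤ (((j : ℕ) : ℤ) - ((k : ℕ) : ℤ)) ^ 2 := by
        have := sq_nonneg (((j : ℕ) : ℤ) - ((k : ℕ) : ℤ))
        have h3 : (((j : ℕ) : ℤ) - ((k : ℕ) : ℤ)) ^ 2 ≠ 0 := pow_ne_zero 2 h1
        omega
      exact_mod_cast h2
    have hb : ∀ i : Fin N, ((i : ℕ) : ℝ) ^ 2 + 1 ≤ (N : ℝ) ^ 2 := by
      intro i
      have h1 : ((i : ℕ) : ℝ) + 1 ≤ N := by exact_mod_cast i.2
      have h0 : (0 : ℝ) ≤ ((i : ℕ) : ℝ) := Nat.cast_nonneg _
      nlinarith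
    have hj := hb j
    have hk := hb k
    have hj0 : (0 : ℝ) < ((j : ℕ) : ℝ) ^ 2 + 1 := by positivity
    have hk0 : (0 : ℝ) < ((k : ℕ) : ℝ) ^ 2 + 1 := by positivity
    have hlow : 1 / (N : ℝ) ^ 4 ≤ ‖pt N j - pt N k‖ ^ 2 := by
      rw [hsq]
      apply div_le_div₀ (by positivity) (by linarith) (by positivity)
      calc (((j : ℕ) : ℝ) ^ 2 + 1) * (((k : ℕ) : ℝ) ^ 2 + 1) ≤ (N : ℝ) ^ 2 * (N : ℝ) ^ 2 :=
            mul_le_mul hj hk hk0.le (by positivity)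
        _ = (N : ℝ) ^ 4 := by ring
    have hpos : 0 < 1 / (N : ℝ) ^ 4 := by positivity
    have hlog := Real.log_le_log hpos hlow
    rw [Real.log_div one_ne_zero (by positivity), Real.log_one, Real.log_pow, Real.log_pow] at hlog
    have hl := Real.log_le_sub_one_of_pos (show (0 : ℝ) < N by linarith)
    push_cast at hlog
    linarith

theorem pt_conf {N : ℕ} (hN : 2 ≤ N) : IsConf (pt N) := by
  refine ⟨fun i => pt_norm i, ?_⟩
  intro j k hjk
  have h := pt_dist j k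
  rw [hjk, sub_self, norm_zero] at h
  have h1 : (0 : ℝ) < (((j : ℕ) : ℝ) ^ 2 + 1) * (((k : ℕ) : ℝ) ^ 2 + 1) := by positivity
  have h2 : (((j : ℕ) : ℝ) - ((k : ℕ) : ℝ)) ^ 2 = 0 := by
    have h3 : 4 * (((j : ℕ) : ℝ) - ((k : ℕ) : ℝ)) ^ 2 = 0 := by
      rw [eq_comm, div_eq_iff h1.ne'] at h
      rw [h]
      ring
    linarith
  have h4 : ((j : ℕ) : ℝ) = ((k : ℕ) : ℝ) := by
    have := pow_eq_zero_iff (n := 2) (by norm_num) |>.mp h2
    linarith
  exact Fin.ext (by exact_mod_cast h4)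

theorem pt_energy {N : ℕ} (hN : 2 ≤ N) : energy (pt N) ≤ 2 * (N : ℝ) ^ 3 := by
  unfold energy
  calc ∑ i, ∑ j, (if i = j then 0 else -Real.log ‖pt N i - pt N j‖)
      ≤ ∑ _i : Fin N, ∑ _j : Fin N, 2 * (N : ℝ) :=
        Finset.sum_le_sum fun i _ => Finset.sum_le_sum fun j _ => pt_term hN i j
    _ = 2 * (N : ℝ) ^ 3 := by
        simp only [Finset.sum_const, Finset.card_univ, Fintype.card_fin, nsmul_eq_mul]
        ring

theorem a2 : S_A2 := by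
  intro N hN
  have hN' : (2 : ℝ) ≤ N := by exact_mod_cast hN
  set S : Set ℝ := {e : ℝ | ∃ x : Fin N → E3, IsConf x ∧ e = energy x} with hS
  have hne : S.Nonempty := ⟨energy (pt N), pt N, pt_conf hN, rfl⟩
  have hbd : BddBelow S := by
    refine ⟨-(N ^ 2 * Real.log 2), ?_⟩
    rintro e ⟨x, hx, rfl⟩
    exact a2_lower x hx
  have hle : minEnergy N ≤ 2 * (N : ℝ) ^ 3 :=
    (csInf_le hbd ⟨pt N, pt_conf hN, rfl⟩).trans (pt_energy hN)
  obtain ⟨e, ⟨x, hx, rfl⟩, he⟩ := exists_lt_of_csInf_lt hne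
    (show sInf S < minEnergy N + 1 by
      have : sInf S = minEnergy N := rfl
      linarith)
  refine ⟨x, hx, he.le, ?_⟩
  intro i j hij
  have hp := a2_pair x hx i j hij
  have hpos : 0 < ‖x i - x j‖ := norm_pos_iff.mpr (sub_ne_zero.mpr fun h2 => hij (hx.2 h2))
  have hl2 : Real.log 2 ≤ 1 := by
    have := Real.log_le_sub_one_of_pos (show (0 : ℝ) < 2 by norm_num)
    linarith
  have hN2 : (N : ℝ) ^ 2 * Real.log 2 ≤ (N : ℝ) ^ 2 := by
    have : (0 : ℝ) ≤ (N : ℝ) ^ 2 := by positivity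
    nlinarith
  have hN3 : 1 + (N : ℝ) ^ 2 ≤ 2 * (N : ℝ) ^ 3 := by
    have h1 : (4 : ℝ) ≤ (N : ℝ) ^ 2 := by nlinarith
    have h2 : 2 * (N : ℝ) ^ 2 ≤ (N : ℝ) ^ 3 := by nlinarith
    linarith
  have hfin : -(2 * (N : ℝ) ^ 3) ≤ Real.log ‖x i - x j‖ := by linarith
  calc Real.exp (-(2 * (N : ℝ) ^ 3)) ≤ Real.exp (Real.log ‖x i - x j‖) := Real.exp_le_exp.mpr hfin
    _ = ‖x i - x j‖ := Real.exp_log hpos

end

end Pool.Agent.H45.S7
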