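import Pool.Agent.H45.S7.Defs

set_option autoImplicit false

namespace Pool.Agent.H45.S7

open Finset

theorem a3 : S_A3 := by
  intro N δ hN hδ x x' hsep hcl
  have hN' : (2 : ℝ) ≤ N := by exact_mod_cast hN
  have hN2 : (0 : ℝ) < (N : ℝ) ^ 2 := by positivity
  have hN4 : (4 : ℝ) ≤ (N : ℝ) ^ 2 := by nlinarith
  set y : ℝ := 1 / (2 * (N : ℝ) ^ 2) with hy
  have hy0 : 0 < y := by positivity
  have hy1 : y ≤ 1 / 2 := by
    rw [hy]
    apply one_div_le_one_div_of_le (by norm_num)
    linarith
  have key : ∀ i j, i ≠ j → ‖x i - x j‖ * (1 - y) ≤ ‖x' i - x' j‖ := by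
    intro i j hij
    have h1 := hsep i j hij
    have h2 := hcl i
    have h3 := hcl j
    have h4 : ‖x i - x j‖ ≤ ‖x' i - x' j‖ + ‖x' i - x i‖ + ‖x' j - x j‖ := by
      have e : x i - x j = (x' i - x' j) - (x' i - x i) + (x' j - x j) := by abel
      rw [e]
      refine le_trans (norm_add_le _ _) ?_
      gcongr
      exact norm_sub_le _ _
    have h5 : δ / (4 * (N : ℝ) ^ 2) + δ / (4 * (N : ℝ) ^ 2) = δ * y := by
      rw [hy]
      field_simp
      ring
    have h6 : δ * y ≤ ‖x i - x j‖ * y := by gcongr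
    nlinarith
  have hpos : ∀ i j, i ≠ j → 0 < ‖x i - x j‖ := fun i j hij => lt_of_lt_of_le hδ (hsep i j hij)
  refine ⟨?_, ?_⟩
  · intro i j hij
    by_contra hne
    have h1 := key i j hne
    have h2 := hpos i j hne
    have h3 : ‖x' i - x' j‖ = 0 := by rw [hij, sub_self, norm_zero]
    rw [h3] at h1
    nlinarith
  · have hterm : ∀ i j, (if i = j then (0 : ℝ) else -Real.log ‖x' i - x' j‖) ≤
        (if i = j then (0 : ℝ) else -Real.log ‖x i - x j‖) + 1 / (N : ℝ) ^ 2 := by
      intro i j
      by_cases hij : i = j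
      · simp [hij]
      · rw [if_neg hij, if_neg hij]
        have h1 := key i j hij
        have h2 := hpos i j hij
        have h3 : 0 < 1 - y := by linarith
        have h4 : Real.log (‖x i - x j‖ * (1 - y)) ≤ Real.log ‖x' i - x' j‖ :=
          Real.log_le_log (by positivity) h1
        rw [Real.log_mul h2.ne' h3.ne'] at h4
        have h5 := Real.one_sub_inv_le_log_of_pos h3
        have h6 : -(1 / (N : ℝ) ^ 2) ≤ 1 - (1 - y)⁻¹ := by
          have e : 1 / (N : ℝ) ^ 2 = 2 * y := by
            rw [hy]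
            field_simp
          rw [e]
          have h7 : (1 - y)⁻¹ ≤ 1 + 2 * y := by
            rw [inv_le_comm₀ h3 (by linarith), inv_eq_one_div, div_le_iff₀ (by linarith)]
            nlinarith
          linarith
        linarith
    unfold energy
    calc ∑ i, ∑ j, (if i = j then (0 : ℝ) else -Real.log ‖x' i - x' j‖)
        ≤ ∑ i, ∑ j, ((if i = j then (0 : ℝ) else -Real.log ‖x i - x j‖) + 1 / (N : ℝ) ^ 2) :=
          Finset.sum_le_sum fun i _ => Finset.sum_le_sum fun j _ => hterm i j
      _ = ∑ i, ∑ j, (if i = j then (0 : ℝ) else -Real.log ‖x i - x j‖) + 1 := by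
          simp only [Finset.sum_add_distrib, Finset.sum_const, Finset.card_univ, Fintype.card_fin,
            nsmul_eq_mul]
          congr 1
          field_simp

end Pool.Agent.H45.S7
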