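import Pool.Agent.H45.S7.Defs

set_option autoImplicit false

namespace Pool.Agent.H45.S7

open Finset

theorem a4_aux (u : ℝ) (hu : |u| ≤ 1) (L : ℕ) :
    ∃ d : ℕ → Bool, 0 ≤ u - dy L d ∧ u - dy L d ≤ 2 * (1 / 2) ^ L := by
  induction L with
  | zero =>
    refine ⟨fun _ => false, ?_⟩
    have h := abs_le.1 hu
    unfold dy
    rw [Finset.range_zero, Finset.sum_empty, pow_zero]
    constructor <;> linarith [h.1, h.2]
  | succ L ih =>
    obtain ⟨d, h1, h2⟩ := ih
    have key : ∀ b : Bool, dy (L + 1) (Function.update d L b) =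
        dy L d + (if b then (1 : ℝ) else 0) * (1 / 2) ^ L := by
      intro b
      unfold dy
      rw [Finset.sum_range_succ, Function.update_self, ← add_assoc]
      congr 2
      refine Finset.sum_congr rfl fun k hk => ?_
      rw [Function.update_of_ne (Finset.mem_range.1 hk).ne]
    by_cases h : (1 / 2 : ℝ) ^ L ≤ u - dy L d
    · refine ⟨Function.update d L true, ?_⟩
      rw [key, if_pos rfl, one_mul, pow_succ]
      constructor <;> linarith
    · refine ⟨Function.update d L false, ?_⟩
      rw [key, if_neg (by simp), zero_mul, add_zero, pow_succ]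
      constructor <;> linarith

theorem a4 : S_A4 := by
  intro u L hu
  obtain ⟨d, h1, h2⟩ := a4_aux u hu L
  refine ⟨d, ?_⟩
  rw [abs_sub_comm, abs_of_nonneg h1]
  exact h2

end Pool.Agent.H45.S7
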