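import Pool.Agent.H45.S7.Defs

set_option autoImplicit false

namespace Pool.Agent.H45.S7

open Finset

lemma a5_num (N : ℕ) (hN : 2 ≤ N) :
    100 * (2 * (1 / 2 : ℝ) ^ (12 * N ^ 3)) ≤ Real.exp (-(2 * (N : ℝ) ^ 3)) / (4 * (N : ℝ) ^ 2) := by
  have hN' : (2 : ℝ) ≤ N := by exact_mod_cast hN
  have hpos : (0 : ℝ) < 4 * (N : ℝ) ^ 2 := by positivity
  rw [le_div_iff₀ hpos, Real.exp_neg, le_inv_comm₀ (by positivity) (Real.exp_pos _)]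
  have he : Real.exp (2 * (N : ℝ) ^ 3) ≤ (2 : ℝ) ^ (3 * N ^ 3) := by
    have h1 : Real.exp 2 ≤ 8 := by
      have h2 : Real.exp 1 < 2.7182818286 := Real.exp_one_lt_d9
      have h3 : Real.exp 2 = Real.exp 1 * Real.exp 1 := by rw [← Real.exp_add]; norm_num
      have h4 := Real.exp_pos 1
      rw [h3]
      nlinarith
    have h5 : Real.exp (2 * (N : ℝ) ^ 3) = Real.exp 2 ^ (N ^ 3) := by
      rw [← Real.exp_nat_mul]
      congr 1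
      push_cast
      ring
    rw [h5, pow_mul]
    norm_num
    exact pow_le_pow_left₀ (Real.exp_pos 2).le h1 _
  have hn : (N : ℝ) ^ 2 ≤ 2 ^ (N ^ 3) := by
    have h1 : N ≤ 2 ^ N := (Nat.lt_two_pow_self).le
    have h2 : N ^ 2 ≤ 2 ^ (N ^ 3) := by
      calc N ^ 2 ≤ (2 ^ N) ^ 2 := Nat.pow_le_pow_left h1 2
        _ = 2 ^ (N * 2) := by rw [← pow_mul]
        _ ≤ 2 ^ (N ^ 3) := by
          apply Nat.pow_le_pow_right (by norm_num)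
          nlinarith [Nat.mul_le_mul hN hN, Nat.mul_le_mul (Nat.mul_le_mul hN hN) (le_refl N)]
    exact_mod_cast h2
  have h8 : (800 : ℝ) ≤ 2 ^ (2 * N ^ 3) := by
    have h3 : 8 ≤ N ^ 3 := by
      calc 8 = 2 ^ 3 := by norm_num
        _ ≤ N ^ 3 := Nat.pow_le_pow_left hN 3
    calc (800 : ℝ) ≤ 2 ^ 16 := by norm_num
      _ ≤ 2 ^ (2 * N ^ 3) := pow_le_pow_right₀ (by norm_num) (by omega)
  refine le_trans he ?_
  rw [le_inv_comm₀ (by positivity) (by positivity)]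
  have e1 : (((2 : ℝ) ^ (3 * N ^ 3)))⁻¹ = (1 / 2) ^ (3 * N ^ 3) := by
    rw [one_div, inv_pow]
  rw [e1]
  have e2 : (1 / 2 : ℝ) ^ (12 * N ^ 3) = (1 / 2) ^ (3 * N ^ 3) * (1 / 2) ^ (9 * N ^ 3) := by
    rw [← pow_add]
    congr 1
    ring
  rw [e2]
  have e3 : (800 * (N : ℝ) ^ 2) * (1 / 2) ^ (9 * N ^ 3) ≤ 1 := by
    have h4 : (800 : ℝ) * (N : ℝ) ^ 2 ≤ 2 ^ (3 * N ^ 3) := by
      calc (800 : ℝ) * (N : ℝ) ^ 2 ≤ 2 ^ (2 * N ^ 3) * 2 ^ (N ^ 3) := by gcongr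
        _ = 2 ^ (3 * N ^ 3) := by rw [← pow_add]; congr 1; ring
    calc (800 * (N : ℝ) ^ 2) * (1 / 2) ^ (9 * N ^ 3) ≤ 2 ^ (3 * N ^ 3) * (1 / 2) ^ (9 * N ^ 3) := by
          gcongr
      _ ≤ 2 ^ (9 * N ^ 3) * (1 / 2) ^ (9 * N ^ 3) := by
          gcongr
          · norm_num
          · norm_num
      _ = 1 := by rw [← mul_pow]; norm_num
  have h0 : (0 : ℝ) ≤ (1 / 2) ^ (3 * N ^ 3) := by positivity
  calc 100 * (2 * ((1 / 2 : ℝ) ^ (3 * N ^ 3) * (1 / 2) ^ (9 * N ^ 3))) * (4 * (N : ℝ) ^ 2)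
      = (1 / 2 : ℝ) ^ (3 * N ^ 3) * ((800 * (N : ℝ) ^ 2) * (1 / 2) ^ (9 * N ^ 3)) := by ring
    _ ≤ (1 / 2 : ℝ) ^ (3 * N ^ 3) * 1 := by gcongr
    _ = _ := mul_one _

theorem a5 : S_A5 := by
  intro h1 h2 h3 h4 N hN
  obtain ⟨x, hx, he, hsep⟩ := h2 N hN
  have hpar : ∀ i, ∃ u v t : ℝ, |u| ≤ 1 ∧ |v| ≤ 1 ∧ |t| ≤ 1 ∧ u ^ 2 + v ^ 2 + t ^ 2 = 1 ∧
    F u v t = x i := fun i => h1.1 (x i) (hx.1 i)
  choose u v t hu hv ht hs hF using hpar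
  choose du hdu using fun i => h4 (u i) (12 * N ^ 3) (hu i)
  choose dv hdv using fun i => h4 (v i) (12 * N ^ 3) (hv i)
  choose dt hdt using fun i => h4 (t i) (12 * N ^ 3) (ht i)
  set κ : ℝ := 2 * (1 / 2 : ℝ) ^ (12 * N ^ 3) with hκ
  have hnum := a5_num N hN
  have hκ14 : κ ≤ 1 / 14 := by
    have h8 : 8 ≤ N ^ 3 := by
      calc 8 = 2 ^ 3 := by norm_num
        _ ≤ N ^ 3 := Nat.pow_le_pow_left hN 3
    have : (1 / 2 : ℝ) ^ (12 * N ^ 3) ≤ (1 / 2) ^ 10 :=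
      pow_le_pow_of_le_one (by norm_num) (by norm_num) (by omega)
    rw [hκ]
    calc 2 * (1 / 2 : ℝ) ^ (12 * N ^ 3) ≤ 2 * (1 / 2) ^ 10 := by gcongr
      _ ≤ 1 / 14 := by norm_num
  let d : Fin N → Fin 3 → ℕ → Bool := fun i j => if j = 0 then du i else if j = 1 then dv i else dt i
  have d0 : ∀ i, d i 0 = du i := fun i => rfl
  have d1 : ∀ i, d i 1 = dv i := fun i => rfl
  have d2 : ∀ i, d i 2 = dt i := fun i => rfl
  have hmain := fun i => h1.2 (u i) (v i) (t i) (dy (12 * N ^ 3) (du i)) (dy (12 * N ^ 3) (dv i))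
    (dy (12 * N ^ 3) (dt i)) κ (hs i) hκ14 (hdu i) (hdv i) (hdt i)
  have hclose : ∀ i, ‖F (dy (12 * N ^ 3) (du i)) (dy (12 * N ^ 3) (dv i)) (dy (12 * N ^ 3) (dt i)) -
      x i‖ ≤ Real.exp (-(2 * (N : ℝ) ^ 3)) / (4 * (N : ℝ) ^ 2) := by
    intro i
    have := (hmain i).2
    rw [hF i] at this
    exact le_trans this hnum
  obtain ⟨hinj, hen⟩ := h3 N _ hN (Real.exp_pos (-(2 * (N : ℝ) ^ 3))) x
    (fun i => F (dy (12 * N ^ 3) (du i)) (dy (12 * N ^ 3) (dv i)) (dy (12 * N ^ 3) (dt i))) hsep hclose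
  refine ⟨d, ⟨fun i => ?_, ?_⟩, fun i => ?_, ?_⟩
  · simp only [d0, d1, d2]
    exact (hmain i).1
  · simp only [d0, d1, d2]
    exact hinj
  · simp only [d0, d1, d2]
    have hne := (hmain i).1
    by_contra hcon
    have h0 : dy (12 * N ^ 3) (du i) ^ 2 + dy (12 * N ^ 3) (dv i) ^ 2 +
        dy (12 * N ^ 3) (dt i) ^ 2 = 0 := by
      apply le_antisymm (not_lt.mp hcon)
      positivity
    have hz : F (dy (12 * N ^ 3) (du i)) (dy (12 * N ^ 3) (dv i)) (dy (12 * N ^ 3) (dt i)) = 0 := by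
      unfold F
      rw [h0]
      ext j
      fin_cases j <;> simp
    rw [hz, norm_zero] at hne
    norm_num at hne
  · simp only [d0, d1, d2]
    linarith

end Pool.Agent.H45.S7
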