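import Mathlib

/-! Smale's seventh problem for real number machines with real constants: definitions and stubs. -/

set_option autoImplicit false

namespace Pool.Agent.H45.S7

open Finset

noncomputable section

abbrev E3 := EuclideanSpace ℝ (Fin 3)

/-- `N` pairwise distinct points of the unit sphere -/
def IsConf {N : ℕ} (x : Fin N → E3) : Prop := (∀ i, ‖x i‖ = 1) ∧ Function.Injective x

/-- logarithmic energy, the sum over the ordered pairs -/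
def energy {N : ℕ} (x : Fin N → E3) : ℝ :=
  ∑ i, ∑ j, if i = j then 0 else -Real.log ‖x i - x j‖

/-- minimal energy -/
def minEnergy (N : ℕ) : ℝ := sInf {e : ℝ | ∃ x : Fin N → E3, IsConf x ∧ e = energy x}

/-- rational parametrisation of the sphere -/
def F (u v t : ℝ) : E3 :=
  !₂[2 * u * t / (u ^ 2 + v ^ 2 + t ^ 2), 2 * v * t / (u ^ 2 + v ^ 2 + t ^ 2),
    (u ^ 2 + v ^ 2 - t ^ 2) / (u ^ 2 + v ^ 2 + t ^ 2)]

/-- dyadic number in `[-1, 1]` with the digits `d` -/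
def dy (L : ℕ) (d : ℕ → Bool) : ℝ := -1 + ∑ k ∈ range L, (if d k then (1 : ℝ) else 0) * (1 / 2) ^ k

/-- S7-A1. Surjectivity: for z ≠ 1: t = sqrt((1-z)/2), u = x/(2t), v = y/(2t); for z = 1: (1,0,0).
Lipschitz: |2u't'-2ut| <= 5κ, D' = u'^2+v'^2+t'^2 has |D'-1| <= 7κ <= 1/2, so every coordinate changes by at
most 2*7κ+2*7κ. -/
def S_A1 : Prop :=
  (∀ p : E3, ‖p‖ = 1 → ∃ u v t : ℝ, |u| ≤ 1 ∧ |v| ≤ 1 ∧ |t| ≤ 1 ∧ u ^ 2 + v ^ 2 + t ^ 2 = 1 ∧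
    F u v t = p) ∧
  (∀ u v t u' v' t' κ : ℝ, u ^ 2 + v ^ 2 + t ^ 2 = 1 → κ ≤ 1 / 14 → |u' - u| ≤ κ → |v' - v| ≤ κ →
    |t' - t| ≤ κ → ‖F u' v' t'‖ = 1 ∧ ‖F u' v' t' - F u v t‖ ≤ 100 * κ)

/-- S7-A2. Near-minimisers are separated. minEnergy: the set is bounded below (‖x i - x j‖ <= 2, so every term
is >= -log 2) and nonempty.  Upper bound: the points p_k = F k 0 1 (k < N), ‖p_j - p_k‖ =
2|j-k|/sqrt((1+j^2)(1+k^2)) >= 2/(1+N^2) (or: first coordinate and third coordinate), so energy <=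
N^2 log((1+N^2)/2) <= 2 N^3.  Take x with energy x <= minEnergy + 1 <= 2N^3 + 1; then for i ≠ j:
-2 log‖x i - x j‖ <= 2N^3 + 1 + N^2 log 2 <= 4N^3. -/
def S_A2 : Prop := ∀ N : ℕ, 2 ≤ N → ∃ x : Fin N → E3, IsConf x ∧ energy x ≤ minEnergy N + 1 ∧
  ∀ i j, i ≠ j → Real.exp (-(2 * (N : ℝ) ^ 3)) ≤ ‖x i - x j‖

/-- S7-A3. ‖x' i - x' j‖ >= ‖x i - x j‖ - 2η >= ‖x i - x j‖ (1 - 1/(2N^2)) and
-log(1 - y) <= 2y for 0 <= y <= 1/2; N^2 pairs. -/
def S_A3 : Prop := ∀ (N : ℕ) (δ : ℝ), 2 ≤ N → 0 < δ → ∀ x x' : Fin N → E3,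
  (∀ i j, i ≠ j → δ ≤ ‖x i - x j‖) → (∀ i, ‖x' i - x i‖ ≤ δ / (4 * N ^ 2)) →
  Function.Injective x' ∧ energy x' ≤ energy x + 1

/-- S7-A4. Greedy binary expansion: r = u - a in [0, 2p], p = (1/2)^k. -/
def S_A4 : Prop := ∀ (u : ℝ) (L : ℕ), |u| ≤ 1 → ∃ d : ℕ → Bool, |dy L d - u| ≤ 2 * (1 / 2) ^ L

/-- S7-A5. Assembly of A1-A4 with δ = exp(-2N^3), κ = 2 * 2^(-12 N^3): 100 κ <= δ/(4N^2). -/
def S_A : Prop := ∀ N : ℕ, 2 ≤ N → ∃ d : Fin N → Fin 3 → ℕ → Bool,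
  IsConf (fun i => F (dy (12 * N ^ 3) (d i 0)) (dy (12 * N ^ 3) (d i 1)) (dy (12 * N ^ 3) (d i 2))) ∧
  (∀ i, 0 < dy (12 * N ^ 3) (d i 0) ^ 2 + dy (12 * N ^ 3) (d i 1) ^ 2 +
    dy (12 * N ^ 3) (d i 2) ^ 2) ∧
  energy (fun i => F (dy (12 * N ^ 3) (d i 0)) (dy (12 * N ^ 3) (d i 1))
    (dy (12 * N ^ 3) (d i 2))) ≤ minEnergy N + 2

def S_A5 : Prop := S_A1 → S_A2 → S_A3 → S_A4 → S_A

/-! ### the machine -/

/-- the state of the machine: the real registers and the output -/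
structure St where
  r : ℕ → ℝ
  o : List ℝ

/-- programs; `c` is an arbitrary real constant -/
inductive Cmd : Type
  | const (i : ℕ) (c : ℝ) : Cmd
  | add (i j k : ℕ) : Cmd
  | sub (i j k : ℕ) : Cmd
  | mul (i j k : ℕ) : Cmd
  | div (i j k : ℕ) : Cmd
  | out (i : ℕ) : Cmd
  | seq (a b : Cmd) : Cmd
  | ite (i : ℕ) (a b : Cmd) : Cmd
  | while (i : ℕ) (a : Cmd) : Cmd

/-- `Run p s t n`: the program `p` started in the state `s` stops in the state `t` after `n` steps. -/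
inductive Run : Cmd → St → St → ℕ → Prop
  | const (i : ℕ) (c : ℝ) (s : St) : Run (.const i c) s ⟨Function.update s.r i c, s.o⟩ 1
  | add (i j k : ℕ) (s : St) : Run (.add i j k) s ⟨Function.update s.r i (s.r j + s.r k), s.o⟩ 1
  | sub (i j k : ℕ) (s : St) : Run (.sub i j k) s ⟨Function.update s.r i (s.r j - s.r k), s.o⟩ 1
  | mul (i j k : ℕ) (s : St) : Run (.mul i j k) s ⟨Function.update s.r i (s.r j * s.r k), s.o⟩ 1
  | div (i j k : ℕ) (s : St) (h : s.r k ≠ 0) :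
      Run (.div i j k) s ⟨Function.update s.r i (s.r j / s.r k), s.o⟩ 1
  | out (i : ℕ) (s : St) : Run (.out i) s ⟨s.r, s.o ++ [s.r i]⟩ 1
  | seq (a b : Cmd) (s t u : St) (m n : ℕ) : Run a s t m → Run b t u n → Run (.seq a b) s u (m + n)
  | iteTrue (i : ℕ) (a b : Cmd) (s t : St) (m : ℕ) : 0 ≤ s.r i → Run a s t m →
      Run (.ite i a b) s t (m + 1)
  | iteFalse (i : ℕ) (a b : Cmd) (s t : St) (m : ℕ) : s.r i < 0 → Run b s t m →
      Run (.ite i a b) s t (m + 1)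
  | whileStop (i : ℕ) (a : Cmd) (s : St) : s.r i ≤ 0 → Run (.while i a) s s 1
  | whileStep (i : ℕ) (a : Cmd) (s t u : St) (m n : ℕ) : 0 < s.r i → Run a s t m →
      Run (.while i a) t u n → Run (.while i a) s u (m + n + 1)

end

end Pool.Agent.H45.S7
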