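import Pool.Agent.H45.S7.Defs

/-! The machine: extraction of ternary digits from a real constant. -/

set_option autoImplicit false

namespace Pool.Agent.H45.S7

open Finset Cmd

noncomputable section

def bt (σ : ℕ → Bool) (m : ℕ) : ℝ := if σ m then 1 else 0

lemma bt_nonneg (σ : ℕ → Bool) (m : ℕ) : 0 ≤ bt σ m := by unfold bt; split <;> norm_num
lemma bt_le (σ : ℕ → Bool) (m : ℕ) : bt σ m ≤ 1 := by unfold bt; split <;> norm_num

/-- the number with the ternary digits `σ m, σ (m+1), ...` -/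
def W (σ : ℕ → Bool) (m : ℕ) : ℝ := ∑' k : ℕ, bt σ (m + k) * (1 / 3) ^ (k + 1)

lemma W_summable (σ : ℕ → Bool) (m : ℕ) :
    Summable (fun k : ℕ => bt σ (m + k) * (1 / 3 : ℝ) ^ (k + 1)) := by
  have h : Summable (fun k : ℕ => (1 / 3 : ℝ) ^ (k + 1)) :=
    (summable_nat_add_iff 1).mpr (summable_geometric_of_lt_one (by norm_num) (by norm_num))
  refine Summable.of_nonneg_of_le (fun k => mul_nonneg (bt_nonneg _ _) (by positivity)) ?_ h
  intro k
  calc bt σ (m + k) * (1 / 3 : ℝ) ^ (k + 1) ≤ 1 * (1 / 3 : ℝ) ^ (k + 1) :=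
        mul_le_mul_of_nonneg_right (bt_le _ _) (by positivity)
    _ = _ := one_mul _

lemma W_nonneg (σ : ℕ → Bool) (m : ℕ) : 0 ≤ W σ m :=
  tsum_nonneg fun k => mul_nonneg (bt_nonneg _ _) (by positivity)

lemma W_le (σ : ℕ → Bool) (m : ℕ) : W σ m ≤ 1 / 2 := by
  have h : Summable (fun k : ℕ => (1 / 3 : ℝ) ^ (k + 1)) :=
    (summable_nat_add_iff 1).mpr (summable_geometric_of_lt_one (by norm_num) (by norm_num))
  have h2 : ∑' k : ℕ, (1 / 3 : ℝ) ^ (k + 1) = 1 / 2 := by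
    have h3 := tsum_geometric_of_lt_one (r := (1 / 3 : ℝ)) (by norm_num) (by norm_num)
    have h4 : ∀ k : ℕ, (1 / 3 : ℝ) ^ (k + 1) = (1 / 3) * (1 / 3) ^ k := fun k => by ring
    simp_rw [h4]
    rw [tsum_mul_left, h3]
    norm_num
  rw [← h2]
  refine Summable.tsum_le_tsum (fun k => ?_) (W_summable σ m) h
  calc bt σ (m + k) * (1 / 3 : ℝ) ^ (k + 1) ≤ 1 * (1 / 3 : ℝ) ^ (k + 1) :=
        mul_le_mul_of_nonneg_right (bt_le _ _) (by positivity)
    _ = _ := one_mul _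

lemma W_step (σ : ℕ → Bool) (m : ℕ) : W σ m * 3 = bt σ m + W σ (m + 1) := by
  unfold W
  rw [(W_summable σ m).tsum_eq_zero_add, add_mul, ← tsum_mul_right]
  congr 1
  · simp
  · congr 1
    funext k
    have : m + (k + 1) = m + 1 + k := by ring
    rw [this]
    ring

/-- one digit -/
def body : Cmd :=
  seq (mul 1 1 11) (seq (sub 4 1 2) (seq (ite 4 (seq (add 1 4 12) (add 6 6 5)) (add 4 4 12))
    (seq (mul 5 5 3) (sub 9 9 2))))

structure Base (s : St) : Prop where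
  h2 : s.r 2 = 1
  h3 : s.r 3 = 1 / 2
  h11 : s.r 11 = 3
  h12 : s.r 12 = 0

lemma body_run (σ : ℕ → Bool) (s : St) (m : ℕ) (h1 : s.r 1 = W σ m) (hb : Base s) :
    ∃ (t : St) (n : ℕ), Run body s t n ∧ n ≤ 7 ∧ t.o = s.o ∧ t.r 1 = W σ (m + 1) ∧
      t.r 5 = s.r 5 * (1 / 2) ∧ t.r 6 = s.r 6 + bt σ m * s.r 5 ∧ t.r 9 = s.r 9 - 1 ∧
      ∀ j, j ≠ 1 → j ≠ 4 → j ≠ 5 → j ≠ 6 → j ≠ 9 → t.r j = s.r j := by
  obtain ⟨h2, h3, h11, h12⟩ := hb
  have hW := W_step σ m
  have hW1 := W_nonneg σ (m + 1)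
  have hW2 := W_le σ (m + 1)
  by_cases hσ : σ m
  · have hbt : bt σ m = 1 := by simp [bt, hσ]
    rw [hbt] at hW
    refine ⟨_, _, Run.seq _ _ _ _ _ _ _ (Run.mul 1 1 11 s) (Run.seq _ _ _ _ _ _ _ (Run.sub 4 1 2 _)
      (Run.seq _ _ _ _ _ _ _ (Run.iteTrue 4 _ _ _ _ _ ?_ (Run.seq _ _ _ _ _ _ _ (Run.add 1 4 12 _)
        (Run.add 6 6 5 _))) (Run.seq _ _ _ _ _ _ _ (Run.mul 5 5 3 _) (Run.sub 9 9 2 _)))),
      ?_, ?_, ?_, ?_, ?_, ?_, ?_⟩
    · simp [Function.update, h1, h2, h11]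
      linarith
    · norm_num
    · rfl
    · simp [Function.update, h1, h2, h11, h12]
      linarith
    · simp [Function.update, h3]
    · simp [Function.update, hbt]
    · simp [Function.update, h2]
    · intro j j1 j4 j5 j6 j9
      simp [Function.update, j1, j4, j5, j6, j9]
  · have hbt : bt σ m = 0 := by simp [bt, hσ]
    rw [hbt] at hW
    refine ⟨_, _, Run.seq _ _ _ _ _ _ _ (Run.mul 1 1 11 s) (Run.seq _ _ _ _ _ _ _ (Run.sub 4 1 2 _)
      (Run.seq _ _ _ _ _ _ _ (Run.iteFalse 4 _ _ _ _ _ ?_ (Run.add 4 4 12 _))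
        (Run.seq _ _ _ _ _ _ _ (Run.mul 5 5 3 _) (Run.sub 9 9 2 _)))),
      ?_, ?_, ?_, ?_, ?_, ?_, ?_⟩
    · simp [Function.update, h1, h2, h11]
      linarith
    · norm_num
    · rfl
    · simp [Function.update, h1, h2, h11, h12]
      linarith
    · simp [Function.update, h3]
    · simp [Function.update, hbt]
    · simp [Function.update, h2]
    · intro j j1 j4 j5 j6 j9
      simp [Function.update, j1, j4, j5, j6, j9]

/-- the digit loop -/
lemma loop_run (σ : ℕ → Bool) (K : ℕ) : ∀ (s : St) (m : ℕ), s.r 1 = W σ m → Base s → s.r 9 = K →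
    ∃ (t : St) (n : ℕ), Run (Cmd.while 9 body) s t n ∧ n ≤ 8 * K + 1 ∧ t.o = s.o ∧
      t.r 1 = W σ (m + K) ∧
      t.r 6 = s.r 6 + s.r 5 * ∑ k ∈ range K, bt σ (m + k) * (1 / 2) ^ k ∧
      ∀ j, j ≠ 1 → j ≠ 4 → j ≠ 5 → j ≠ 6 → j ≠ 9 → t.r j = s.r j := by
  induction K with
  | zero =>
    intro s m h1 hb h9
    refine ⟨s, 1, Run.whileStop 9 body s (by rw [h9]; simp), by omega, rfl, by simpa using h1,
      by simp, fun j _ _ _ _ _ => rfl⟩
  | succ K ih =>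
    intro s m h1 hb h9
    obtain ⟨t, n, hr, hn, ho, e1, e5, e6, e9, hoth⟩ := body_run σ s m h1 hb
    have hb' : Base t := by
      refine ⟨?_, ?_, ?_, ?_⟩
      · rw [hoth 2 (by decide) (by decide) (by decide) (by decide) (by decide)]; exact hb.h2
      · rw [hoth 3 (by decide) (by decide) (by decide) (by decide) (by decide)]; exact hb.h3
      · rw [hoth 11 (by decide) (by decide) (by decide) (by decide) (by decide)]; exact hb.h11
      · rw [hoth 12 (by decide) (by decide) (by decide) (by decide) (by decide)]; exact hb.h12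
    have h9' : t.r 9 = K := by
      rw [e9, h9]
      push_cast
      ring
    obtain ⟨t', n', hr', hn', ho', f1, f6, foth⟩ := ih t (m + 1) e1 hb' h9'
    refine ⟨t', n + n' + 1, Run.whileStep 9 body s t t' n n' (by rw [h9]; positivity) hr hr',
      by omega, by rw [ho', ho], ?_, ?_, ?_⟩
    · rw [f1]
      congr 1
      omega
    · rw [f6, e6, e5, Finset.sum_range_succ']
      have h7 : ∑ k ∈ range K, bt σ (m + (k + 1)) * (1 / 2 : ℝ) ^ (k + 1) =
          (1 / 2) * ∑ k ∈ range K, bt σ (m + 1 + k) * (1 / 2 : ℝ) ^ k := by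
        rw [Finset.mul_sum]
        refine Finset.sum_congr rfl fun k _ => ?_
        have : m + (k + 1) = m + 1 + k := by ring
        rw [this]
        ring
      rw [h7]
      simp
      ring
    · intro j j1 j4 j5 j6 j9
      rw [foth j j1 j4 j5 j6 j9, hoth j j1 j4 j5 j6 j9]

/-- decode one number -/
def dec : Cmd := seq (const 6 (-1)) (seq (const 5 1) (seq (add 9 15 12) (Cmd.while 9 body)))

lemma dec_run (σ : ℕ → Bool) (s : St) (m L : ℕ) (h1 : s.r 1 = W σ m) (hb : Base s)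
    (hL : s.r 15 = L) :
    ∃ (t : St) (n : ℕ), Run dec s t n ∧ n ≤ 8 * L + 4 ∧ t.o = s.o ∧ t.r 1 = W σ (m + L) ∧
      t.r 6 = dy L (fun k => σ (m + k)) ∧
      ∀ j, j ≠ 1 → j ≠ 4 → j ≠ 5 → j ≠ 6 → j ≠ 9 → t.r j = s.r j := by
  set s1 : St := ⟨Function.update s.r 6 (-1), s.o⟩ with hs1
  set s2 : St := ⟨Function.update s1.r 5 1, s1.o⟩ with hs2
  set s3 : St := ⟨Function.update s2.r 9 (s2.r 15 + s2.r 12), s2.o⟩ with hs3
  have hb3 : Base s3 := by
    refine ⟨?_, ?_, ?_, ?_⟩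
    · simp [hs3, hs2, hs1, Function.update, hb.h2]
    · simp [hs3, hs2, hs1, Function.update, hb.h3]
    · simp [hs3, hs2, hs1, Function.update, hb.h11]
    · simp [hs3, hs2, hs1, Function.update, hb.h12]
  have h13 : s3.r 1 = W σ m := by simp [hs3, hs2, hs1, Function.update, h1]
  have h93 : s3.r 9 = L := by simp [hs3, hs2, hs1, Function.update, hL, hb.h12]
  obtain ⟨t, n, hr, hn, ho, e1, e6, hoth⟩ := loop_run σ L s3 m h13 hb3 h93
  refine ⟨t, 1 + (1 + (1 + n)), Run.seq _ _ _ s1 _ _ _ (Run.const 6 (-1) s) (Run.seq _ _ _ s2 _ _ _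
    (Run.const 5 1 s1) (Run.seq _ _ _ s3 _ _ _ (Run.add 9 15 12 s2) hr)), by omega, ?_, e1, ?_, ?_⟩
  · rw [ho]
  · rw [e6]
    have h6 : s3.r 6 = -1 := by simp [hs3, hs2, hs1, Function.update]
    have h5 : s3.r 5 = 1 := by simp [hs3, hs2, hs1, Function.update]
    rw [h6, h5, one_mul]
    rfl
  · intro j j1 j4 j5 j6 j9
    rw [hoth j j1 j4 j5 j6 j9]
    simp [hs3, hs2, hs1, Function.update, j5, j6, j9]

/-- output of one point -/
def outp : Cmd :=
  seq (mul 16 7 7) (seq (mul 17 8 8) (seq (mul 18 6 6) (seq (add 19 16 17) (seq (add 20 19 18)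
  (seq (add 21 7 7) (seq (mul 21 21 6) (seq (div 21 21 20) (seq (out 21)
  (seq (add 22 8 8) (seq (mul 22 22 6) (seq (div 22 22 20) (seq (out 22)
  (seq (sub 23 19 18) (seq (div 23 23 20) (out 23)))))))))))))))

lemma outp_run (s : St) (u v w : ℝ) (h7 : s.r 7 = u) (h8 : s.r 8 = v) (h6 : s.r 6 = w)
    (hD : 0 < u ^ 2 + v ^ 2 + w ^ 2) :
    ∃ (t : St), Run outp s t 16 ∧ t.o = s.o ++ [F u v w 0, F u v w 1, F u v w 2] ∧
      ∀ j, j < 16 → t.r j = s.r j := by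
  have hD' : u * u + v * v + w * w ≠ 0 := by nlinarith
  refine ⟨_, Run.seq _ _ _ _ _ _ _ (Run.mul 16 7 7 s) (Run.seq _ _ _ _ _ _ _ (Run.mul 17 8 8 _)
    (Run.seq _ _ _ _ _ _ _ (Run.mul 18 6 6 _) (Run.seq _ _ _ _ _ _ _ (Run.add 19 16 17 _)
    (Run.seq _ _ _ _ _ _ _ (Run.add 20 19 18 _) (Run.seq _ _ _ _ _ _ _ (Run.add 21 7 7 _)
    (Run.seq _ _ _ _ _ _ _ (Run.mul 21 21 6 _) (Run.seq _ _ _ _ _ _ _ (Run.div 21 21 20 _ ?_)
    (Run.seq _ _ _ _ _ _ _ (Run.out 21 _) (Run.seq _ _ _ _ _ _ _ (Run.add 22 8 8 _)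
    (Run.seq _ _ _ _ _ _ _ (Run.mul 22 22 6 _) (Run.seq _ _ _ _ _ _ _ (Run.div 22 22 20 _ ?_)
    (Run.seq _ _ _ _ _ _ _ (Run.out 22 _) (Run.seq _ _ _ _ _ _ _ (Run.sub 23 19 18 _)
    (Run.seq _ _ _ _ _ _ _ (Run.div 23 23 20 _ ?_) (Run.out 23 _))))))))))))))), ?_, ?_⟩
  · simpa [Function.update, h6, h7, h8] using hD'
  · simpa [Function.update, h6, h7, h8] using hD'
  · simpa [Function.update, h6, h7, h8] using hD'
  · simp [Function.update, h6, h7, h8, F]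
    refine ⟨?_, ?_, ?_⟩
    · congr 1 <;> ring
    · congr 1 <;> ring
    · congr 1 <;> ring
  · intro j hj
    have a16 : j ≠ 16 := by omega
    have a17 : j ≠ 17 := by omega
    have a18 : j ≠ 18 := by omega
    have a19 : j ≠ 19 := by omega
    have a20 : j ≠ 20 := by omega
    have a21 : j ≠ 21 := by omega
    have a22 : j ≠ 22 := by omega
    have a23 : j ≠ 23 := by omega
    simp [Function.update, a16, a17, a18, a19, a20, a21, a22, a23]

end

end Pool.Agent.H45.S7
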