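import Pool.Agent.H45.S7.Prog

/-! Assembly. -/

set_option autoImplicit false

namespace Pool.Agent.H45.S7

open Finset Cmd

noncomputable section

/-- the list of the coordinates of the points -/
def coords {N : ℕ} (x : Fin N → E3) : List ℝ :=
  (List.finRange N).flatMap fun i => [x i 0, x i 1, x i 2]

lemma encode (t : ℕ → ℕ → Bool) :
    ∃ σ : ℕ → Bool, ∀ n o, o < 36 * n ^ 4 → σ (36 * n ^ 5 + o) = t n o := by
  classical
  have key : ∀ n n' o o' : ℕ, o < 36 * n ^ 4 → o' < 36 * n' ^ 4 →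
      36 * n ^ 5 + o = 36 * n' ^ 5 + o' → n' ≤ n := by
    intro n n' o o' ho ho' h
    by_contra hlt
    have h1 : n + 1 ≤ n' := by omega
    have h2 : (n + 1) ^ 5 ≤ n' ^ 5 := Nat.pow_le_pow_left h1 5
    have h3 : n ^ 5 + n ^ 4 ≤ (n + 1) ^ 5 := by
      have : (n + 1) ^ 5 = n ^ 5 + n ^ 4 + (4 * n ^ 4 + 10 * n ^ 3 + 10 * n ^ 2 + 5 * n + 1) := by ring
      omega
    omega
  refine ⟨fun m => decide (∃ n o, o < 36 * n ^ 4 ∧ m = 36 * n ^ 5 + o ∧ t n o = true), ?_⟩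
  intro n o ho
  by_cases h : t n o = true
  · rw [h]
    exact decide_eq_true ⟨n, o, ho, rfl, h⟩
  · have h0 : t n o = false := by simpa using h
    rw [h0]
    apply decide_eq_false
    rintro ⟨n', o', ho', he, ht⟩
    have e1 := key n n' o o' ho ho' he
    have e2 := key n' n o' o ho' ho he.symm
    have e3 : n' = n := by omega
    subst e3
    have e4 : o' = o := by omega
    subst e4
    exact h ht

/-- the machines are deterministic -/
theorem run_det {p : Cmd} {s t t' : St} {n n' : ℕ} (h : Run p s t n) (h' : Run p s t' n') :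
    t = t' ∧ n = n' := by
  induction h generalizing t' n' with
  | const i c s => cases h'; exact ⟨rfl, rfl⟩
  | add i j k s => cases h'; exact ⟨rfl, rfl⟩
  | sub i j k s => cases h'; exact ⟨rfl, rfl⟩
  | mul i j k s => cases h'; exact ⟨rfl, rfl⟩
  | div i j k s h => cases h'; exact ⟨rfl, rfl⟩
  | out i s => cases h'; exact ⟨rfl, rfl⟩
  | seq a b s t u m n h1 h2 ih1 ih2 =>
    cases h' with
    | seq _ _ _ t1 _ m1 n1 g1 g2 =>
      obtain ⟨rfl, rfl⟩ := ih1 g1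
      obtain ⟨rfl, rfl⟩ := ih2 g2
      exact ⟨rfl, rfl⟩
  | iteTrue i a b s t m hc h1 ih1 =>
    cases h' with
    | iteTrue _ _ _ _ _ m1 gc g1 =>
      obtain ⟨rfl, rfl⟩ := ih1 g1
      exact ⟨rfl, rfl⟩
    | iteFalse _ _ _ _ _ m1 gc g1 => exact absurd gc (not_lt.mpr hc)
  | iteFalse i a b s t m hc h1 ih1 =>
    cases h' with
    | iteTrue _ _ _ _ _ m1 gc g1 => exact absurd hc (not_lt.mpr gc)
    | iteFalse _ _ _ _ _ m1 gc g1 =>
      obtain ⟨rfl, rfl⟩ := ih1 g1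
      exact ⟨rfl, rfl⟩
  | whileStop i a s hc =>
    cases h' with
    | whileStop _ _ _ gc => exact ⟨rfl, rfl⟩
    | whileStep _ _ _ _ _ m1 n1 gc g1 g2 => exact absurd gc (not_lt.mpr hc)
  | whileStep i a s t u m n hc h1 h2 ih1 ih2 =>
    cases h' with
    | whileStop _ _ _ gc => exact absurd hc (not_lt.mpr gc)
    | whileStep _ _ _ t1 _ m1 n1 gc g1 g2 =>
      obtain ⟨rfl, rfl⟩ := ih1 g1
      obtain ⟨rfl, rfl⟩ := ih2 g2
      exact ⟨rfl, rfl⟩

lemma div_mod_facts (L i j k : ℕ) (hj : j < 3) (hk : k < L) :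
    (i * (3 * L) + j * L + k) / L / 3 = i ∧ (i * (3 * L) + j * L + k) / L % 3 = j ∧
      (i * (3 * L) + j * L + k) % L = k := by
  have hL : 0 < L := by omega
  have e : i * (3 * L) + j * L + k = k + L * (3 * i + j) := by ring
  have h1 : (i * (3 * L) + j * L + k) / L = 3 * i + j := by
    rw [e, Nat.add_mul_div_left _ _ hL, Nat.div_eq_of_lt hk, zero_add]
  refine ⟨?_, ?_, ?_⟩
  · rw [h1]; omega
  · rw [h1]; omega
  · rw [e, Nat.add_mul_mod_self_left, Nat.mod_eq_of_lt hk]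

/-- assembly -/
theorem assembly (hA : S_A) : ∃ T : ℝ, ∀ N : ℕ, 2 ≤ N →
    ∃ (s : St) (n : ℕ), Run (prog T) (input N) s n ∧ n ≤ 700 * N ^ 5 ∧
      ∃ x : Fin N → E3, IsConf x ∧ s.o = coords x ∧ energy x ≤ minEnergy N + 2 ∧
        energy x - minEnergy N ≤ 3 * Real.log N := by
  classical
  choose! d hd1 hd2 hd3 using hA
  -- the digits
  let t : ℕ → ℕ → Bool := fun N o =>
    if h : o / (12 * N ^ 3) / 3 < N then
      d N ⟨o / (12 * N ^ 3) / 3, h⟩ ⟨o / (12 * N ^ 3) % 3, Nat.mod_lt _ (by norm_num)⟩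
        (o % (12 * N ^ 3))
    else false
  obtain ⟨σ, hσ⟩ := encode t
  refine ⟨W σ 0, fun N hN => ?_⟩
  have hL : 0 < 12 * N ^ 3 := by positivity
  -- the digits of the numbers
  have hdig : ∀ (i : Fin N) (j k : ℕ) (hj : j < 3), k < 12 * N ^ 3 →
      σ (36 * N ^ 5 + (i * (3 * (12 * N ^ 3)) + j * (12 * N ^ 3) + k)) = d N i ⟨j, hj⟩ k := by
    intro i j k hj hk
    have hlt : i * (3 * (12 * N ^ 3)) + j * (12 * N ^ 3) + k < 36 * N ^ 4 := by
      have h1 : (i : ℕ) + 1 ≤ N := i.2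
      have h2 : ((i : ℕ) + 1) * (3 * (12 * N ^ 3)) ≤ N * (3 * (12 * N ^ 3)) :=
        Nat.mul_le_mul_right _ h1
      have h3 : N * (3 * (12 * N ^ 3)) = 36 * N ^ 4 := by ring
      have h4 : ((i : ℕ) + 1) * (3 * (12 * N ^ 3)) =
          i * (3 * (12 * N ^ 3)) + 3 * (12 * N ^ 3) := by ring
      have h5 : (j + 1) * (12 * N ^ 3) ≤ 3 * (12 * N ^ 3) := Nat.mul_le_mul_right _ (by omega)
      have h6 : (j + 1) * (12 * N ^ 3) = j * (12 * N ^ 3) + 12 * N ^ 3 := by ring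
      omega
    rw [hσ N _ hlt]
    obtain ⟨e1, e2, e3⟩ := div_mod_facts (12 * N ^ 3) i j k hj hk
    simp only [t, e1, e2, e3]
    rw [dif_pos i.2]
  have hdy : ∀ (i : Fin N) (j : ℕ) (hj : j < 3),
      dy (12 * N ^ 3) (fun k => σ (36 * N ^ 5 + (i * (3 * (12 * N ^ 3)) + j * (12 * N ^ 3) + k))) =
        dy (12 * N ^ 3) (d N i ⟨j, hj⟩) := by
    intro i j hj
    unfold dy
    congr 1
    refine Finset.sum_congr rfl fun k hk => ?_
    beta_reduce
    rw [hdig i j k hj (Finset.mem_range.mp hk)]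
  have hP : ∀ i : Fin N, P3 σ (12 * N ^ 3) (36 * N ^ 5 + i * (3 * (12 * N ^ 3))) =
      F (dy (12 * N ^ 3) (d N i 0)) (dy (12 * N ^ 3) (d N i 1)) (dy (12 * N ^ 3) (d N i 2)) ∧
      D3 σ (12 * N ^ 3) (36 * N ^ 5 + i * (3 * (12 * N ^ 3))) =
      dy (12 * N ^ 3) (d N i 0) ^ 2 + dy (12 * N ^ 3) (d N i 1) ^ 2 +
        dy (12 * N ^ 3) (d N i 2) ^ 2 := by
    intro i
    have a0 : dy (12 * N ^ 3) (fun k => σ (36 * N ^ 5 + i * (3 * (12 * N ^ 3)) + k)) =
        dy (12 * N ^ 3) (d N i 0) := by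
      have := hdy i 0 (by norm_num)
      rw [← show (⟨0, by norm_num⟩ : Fin 3) = 0 from rfl, ← this]
      congr 1
      funext k
      congr 1
      ring
    have a1 : dy (12 * N ^ 3) (fun k => σ (36 * N ^ 5 + i * (3 * (12 * N ^ 3)) + 12 * N ^ 3 + k)) =
        dy (12 * N ^ 3) (d N i 1) := by
      have := hdy i 1 (by norm_num)
      rw [← show (⟨1, by norm_num⟩ : Fin 3) = 1 from rfl, ← this]
      congr 1
      funext k
      congr 1
      ring
    have a2 : dy (12 * N ^ 3)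
        (fun k => σ (36 * N ^ 5 + i * (3 * (12 * N ^ 3)) + 2 * (12 * N ^ 3) + k)) =
        dy (12 * N ^ 3) (d N i 2) := by
      have := hdy i 2 (by norm_num)
      rw [← show (⟨2, by norm_num⟩ : Fin 3) = 2 from rfl, ← this]
      congr 1
      funext k
      congr 1
      ring
    unfold P3 D3
    rw [a0, a1, a2]
    exact ⟨rfl, rfl⟩
  obtain ⟨s, n, hr, hn, ho⟩ := prog_run σ N (fun i hi => by
    rw [(hP ⟨i, hi⟩).2]
    exact hd2 N hN ⟨i, hi⟩)
  refine ⟨s, n, hr, ?_, _, hd1 N hN, ?_, hd3 N hN, ?_⟩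
  · have h1 : N ^ 4 ≤ N ^ 5 := Nat.pow_le_pow_right (by omega) (by norm_num)
    have h2 : N ≤ N ^ 5 := Nat.le_self_pow (by norm_num) N
    have h3 : 8 * (36 * N ^ 5) + (24 * (12 * N ^ 3) + 32) * N + 15 =
        288 * N ^ 5 + 288 * N ^ 4 + 32 * N + 15 := by ring
    have h4 : 1 ≤ N ^ 5 := Nat.one_le_pow _ _ (by omega)
    omega
  · rw [ho]
    unfold coords
    rw [← List.map_coe_finRange_eq_range, List.flatMap_map]
    apply List.flatMap_congr
    intro i _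
    rw [(hP i).1]
  · have h1 := hd3 N hN
    have h2 : (0.6931471803 : ℝ) < Real.log 2 := Real.log_two_gt_d9
    have h3 : Real.log 2 ≤ Real.log N :=
      Real.log_le_log (by norm_num) (by exact_mod_cast hN)
    linarith

end

end Pool.Agent.H45.S7
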