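import Pool.Agent.H45.S7.Mach

/-! The whole program. -/

set_option autoImplicit false

namespace Pool.Agent.H45.S7

open Finset Cmd

noncomputable section

/-- one point -/
def point : Cmd :=
  seq dec (seq (add 7 6 12) (seq dec (seq (add 8 6 12) (seq dec (seq outp (sub 10 10 2))))))

lemma base_of (s t : St) (h : ∀ j, j ≠ 1 → j ≠ 4 → j ≠ 5 → j ≠ 6 → j ≠ 9 → t.r j = s.r j)
    (hb : Base s) : Base t := by
  refine ⟨?_, ?_, ?_, ?_⟩
  · rw [h 2 (by decide) (by decide) (by decide) (by decide) (by decide)]; exact hb.h2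
  · rw [h 3 (by decide) (by decide) (by decide) (by decide) (by decide)]; exact hb.h3
  · rw [h 11 (by decide) (by decide) (by decide) (by decide) (by decide)]; exact hb.h11
  · rw [h 12 (by decide) (by decide) (by decide) (by decide) (by decide)]; exact hb.h12

/-- the coordinates of the point coded at position `m` -/
def P3 (σ : ℕ → Bool) (L m : ℕ) : E3 :=
  F (dy L fun k => σ (m + k)) (dy L fun k => σ (m + L + k)) (dy L fun k => σ (m + 2 * L + k))

def D3 (σ : ℕ → Bool) (L m : ℕ) : ℝ :=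
  (dy L fun k => σ (m + k)) ^ 2 + (dy L fun k => σ (m + L + k)) ^ 2 +
    (dy L fun k => σ (m + 2 * L + k)) ^ 2

lemma point_run (σ : ℕ → Bool) (s : St) (m L : ℕ) (h1 : s.r 1 = W σ m) (hb : Base s)
    (hL : s.r 15 = L) (hD : 0 < D3 σ L m) :
    ∃ (t : St) (n : ℕ), Run point s t n ∧ n ≤ 24 * L + 31 ∧
      t.o = s.o ++ [P3 σ L m 0, P3 σ L m 1, P3 σ L m 2] ∧ t.r 1 = W σ (m + 3 * L) ∧
      Base t ∧ t.r 15 = L ∧ t.r 10 = s.r 10 - 1 := by
  obtain ⟨a, n1, r1, c1, o1, w1, v1, q1⟩ := dec_run σ s m L h1 hb hL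
  set a' : St := ⟨Function.update a.r 7 (a.r 6 + a.r 12), a.o⟩ with ha'
  have ba : Base a := base_of s a q1 hb
  have qa : ∀ j, j ≠ 7 → a'.r j = a.r j := fun j hj => by simp [ha', Function.update, hj]
  have ba' : Base a' := ⟨by rw [qa 2 (by decide)]; exact ba.h2, by rw [qa 3 (by decide)]; exact ba.h3,
    by rw [qa 11 (by decide)]; exact ba.h11, by rw [qa 12 (by decide)]; exact ba.h12⟩
  have wa : a'.r 1 = W σ (m + L) := by rw [qa 1 (by decide)]; exact w1
  have la : a'.r 15 = L := by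
    rw [qa 15 (by decide), q1 15 (by decide) (by decide) (by decide) (by decide) (by decide)]
    exact hL
  have ua : a'.r 7 = dy L (fun k => σ (m + k)) := by
    simp [ha', Function.update, v1, ba.h12]
  obtain ⟨b, n2, r2, c2, o2, w2, v2, q2⟩ := dec_run σ a' (m + L) L wa ba' la
  set b' : St := ⟨Function.update b.r 8 (b.r 6 + b.r 12), b.o⟩ with hb'
  have bb : Base b := base_of a' b q2 ba'
  have qb : ∀ j, j ≠ 8 → b'.r j = b.r j := fun j hj => by simp [hb', Function.update, hj]
  have bb' : Base b' := ⟨by rw [qb 2 (by decide)]; exact bb.h2, by rw [qb 3 (by decide)]; exact bb.h3,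
    by rw [qb 11 (by decide)]; exact bb.h11, by rw [qb 12 (by decide)]; exact bb.h12⟩
  have wb : b'.r 1 = W σ (m + L + L) := by rw [qb 1 (by decide)]; exact w2
  have lb : b'.r 15 = L := by
    rw [qb 15 (by decide), q2 15 (by decide) (by decide) (by decide) (by decide) (by decide)]
    exact la
  have ub7 : b'.r 7 = dy L (fun k => σ (m + k)) := by
    rw [qb 7 (by decide), q2 7 (by decide) (by decide) (by decide) (by decide) (by decide)]
    exact ua
  have ub8 : b'.r 8 = dy L (fun k => σ (m + L + k)) := by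
    simp [hb', Function.update, v2, bb.h12]
  obtain ⟨c, n3, r3, c3, o3, w3, v3, q3⟩ := dec_run σ b' (m + L + L) L wb bb' lb
  have bc : Base c := base_of b' c q3 bb'
  have uc7 : c.r 7 = dy L (fun k => σ (m + k)) := by
    rw [q3 7 (by decide) (by decide) (by decide) (by decide) (by decide)]; exact ub7
  have uc8 : c.r 8 = dy L (fun k => σ (m + L + k)) := by
    rw [q3 8 (by decide) (by decide) (by decide) (by decide) (by decide)]; exact ub8
  have h2L : m + L + L = m + 2 * L := by ring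
  rw [h2L] at w3 v3
  obtain ⟨d, r4, o4, q4⟩ := outp_run c _ _ _ uc7 uc8 v3 hD
  set d' : St := ⟨Function.update d.r 10 (d.r 10 - d.r 2), d.o⟩ with hd'
  have qd : ∀ j, j ≠ 10 → d'.r j = d.r j := fun j hj => by simp [hd', Function.update, hj]
  have hrun : Run point s d' (n1 + (1 + (n2 + (1 + (n3 + (16 + 1)))))) :=
    Run.seq _ _ _ a _ _ _ r1 (Run.seq _ _ _ a' _ _ _ (Run.add 7 6 12 a) (Run.seq _ _ _ b _ _ _ r2
      (Run.seq _ _ _ b' _ _ _ (Run.add 8 6 12 b) (Run.seq _ _ _ c _ _ _ r3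
        (Run.seq _ _ _ d _ _ _ r4 (Run.sub 10 10 2 d))))))
  refine ⟨d', _, hrun, by omega, ?_, ?_, ?_, ?_, ?_⟩
  · have e1 : d'.o = d.o := rfl
    have e2 : a'.o = a.o := rfl
    have e3 : b'.o = b.o := rfl
    rw [e1, o4, o3, e3, o2, e2, o1]
    rfl
  · rw [qd 1 (by decide), q4 1 (by decide), w3]
    congr 1
    ring
  · exact ⟨by rw [qd 2 (by decide), q4 2 (by decide)]; exact bc.h2,
      by rw [qd 3 (by decide), q4 3 (by decide)]; exact bc.h3,
      by rw [qd 11 (by decide), q4 11 (by decide)]; exact bc.h11,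
      by rw [qd 12 (by decide), q4 12 (by decide)]; exact bc.h12⟩
  · rw [qd 15 (by decide), q4 15 (by decide),
      q3 15 (by decide) (by decide) (by decide) (by decide) (by decide)]
    exact lb
  · have e10 : d'.r 10 = d.r 10 - d.r 2 := by simp [hd', Function.update]
    rw [e10, q4 10 (by decide), q4 2 (by decide), bc.h2,
      q3 10 (by decide) (by decide) (by decide) (by decide) (by decide), qb 10 (by decide),
      q2 10 (by decide) (by decide) (by decide) (by decide) (by decide), qa 10 (by decide),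
      q1 10 (by decide) (by decide) (by decide) (by decide) (by decide)]

/-- the loop over the points -/
lemma points_run (σ : ℕ → Bool) (L K : ℕ) : ∀ (s : St) (m : ℕ), s.r 1 = W σ m → Base s →
    s.r 15 = L → s.r 10 = K → (∀ i < K, 0 < D3 σ L (m + i * (3 * L))) →
    ∃ (t : St) (n : ℕ), Run (Cmd.while 10 point) s t n ∧ n ≤ (24 * L + 32) * K + 1 ∧
      t.o = s.o ++ (List.range K).flatMap fun i => [P3 σ L (m + i * (3 * L)) 0,
        P3 σ L (m + i * (3 * L)) 1, P3 σ L (m + i * (3 * L)) 2] := by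
  induction K with
  | zero =>
    intro s m h1 hb hL h10 hD
    exact ⟨s, 1, Run.whileStop 10 point s (by rw [h10]; simp), by omega, by simp⟩
  | succ K ih =>
    intro s m h1 hb hL h10 hD
    obtain ⟨t, n, hr, hn, ho, e1, hbt, e15, e10⟩ := point_run σ s m L h1 hb hL
      (by simpa using hD 0 (by omega))
    have h10' : t.r 10 = K := by
      rw [e10, h10]
      push_cast
      ring
    obtain ⟨t', n', hr', hn', ho'⟩ := ih t (m + 3 * L) e1 hbt e15 h10' (fun i hi => by
      have := hD (i + 1) (by omega)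
      have e : m + (i + 1) * (3 * L) = m + 3 * L + i * (3 * L) := by ring
      rwa [e] at this)
    refine ⟨t', n + n' + 1, Run.whileStep 10 point s t t' n n' (by rw [h10]; positivity) hr hr',
      ?_, ?_⟩
    · nlinarith
    · rw [ho', ho, List.range_succ_eq_map, List.flatMap_cons, List.flatMap_map]
      simp only [List.append_assoc]
      congr 1
      have e0 : m + 0 * (3 * L) = m := by ring
      rw [e0]
      congr 1
      apply List.flatMap_congr
      intro i _
      have e : m + i.succ * (3 * L) = m + 3 * L + i * (3 * L) := by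
        rw [Nat.succ_eq_add_one]; ring
      rw [e]

/-- the program with the real constant `T` -/
def prog (T : ℝ) : Cmd :=
  seq (const 1 T) (seq (const 2 1) (seq (const 3 (1 / 2)) (seq (const 11 3) (seq (const 12 0)
  (seq (const 13 36) (seq (const 16 12) (seq (mul 14 0 0) (seq (mul 17 14 0) (seq (mul 15 17 16)
  (seq (mul 9 17 14) (seq (mul 9 9 13) (seq (add 10 0 12)
  (seq (Cmd.while 9 body) (Cmd.while 10 point))))))))))))))

/-- the input -/
def input (N : ℕ) : St := ⟨fun j => if j = 0 then (N : ℝ) else 0, []⟩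

lemma prog_run (σ : ℕ → Bool) (N : ℕ)
    (hD : ∀ i < N, 0 < D3 σ (12 * N ^ 3) (36 * N ^ 5 + i * (3 * (12 * N ^ 3)))) :
    ∃ (t : St) (n : ℕ), Run (prog (W σ 0)) (input N) t n ∧
      n ≤ 8 * (36 * N ^ 5) + (24 * (12 * N ^ 3) + 32) * N + 15 ∧
      t.o = (List.range N).flatMap fun i =>
        [P3 σ (12 * N ^ 3) (36 * N ^ 5 + i * (3 * (12 * N ^ 3))) 0,
         P3 σ (12 * N ^ 3) (36 * N ^ 5 + i * (3 * (12 * N ^ 3))) 1,
         P3 σ (12 * N ^ 3) (36 * N ^ 5 + i * (3 * (12 * N ^ 3))) 2] := by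
  -- the state after the initialisation
  obtain ⟨s, hs, f1, f2, f3, f11, f12, f15, f9, f10, fo⟩ : ∃ s : St,
      (∀ (c : Cmd) (t : St) (n : ℕ), Run c s t n →
        Run (seq (const 1 (W σ 0)) (seq (const 2 1) (seq (const 3 (1 / 2)) (seq (const 11 3)
          (seq (const 12 0) (seq (const 13 36) (seq (const 16 12) (seq (mul 14 0 0)
          (seq (mul 17 14 0) (seq (mul 15 17 16) (seq (mul 9 17 14) (seq (mul 9 9 13)
          (seq (add 10 0 12) c))))))))))))) (input N) t
          (1 + (1 + (1 + (1 + (1 + (1 + (1 + (1 + (1 + (1 + (1 + (1 + (1 + n)))))))))))))) ∧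
      s.r 1 = W σ 0 ∧ s.r 2 = 1 ∧ s.r 3 = 1 / 2 ∧ s.r 11 = 3 ∧ s.r 12 = 0 ∧
      s.r 15 = ((12 * N ^ 3 : ℕ) : ℝ) ∧ s.r 9 = ((36 * N ^ 5 : ℕ) : ℝ) ∧ s.r 10 = (N : ℝ) ∧
      s.o = [] := by
    refine ⟨_, fun c t n h => Run.seq _ _ _ _ _ _ _ (Run.const 1 _ _) (Run.seq _ _ _ _ _ _ _
      (Run.const 2 _ _) (Run.seq _ _ _ _ _ _ _ (Run.const 3 _ _) (Run.seq _ _ _ _ _ _ _
      (Run.const 11 _ _) (Run.seq _ _ _ _ _ _ _ (Run.const 12 _ _) (Run.seq _ _ _ _ _ _ _
      (Run.const 13 _ _) (Run.seq _ _ _ _ _ _ _ (Run.const 16 _ _) (Run.seq _ _ _ _ _ _ _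
      (Run.mul 14 0 0 _) (Run.seq _ _ _ _ _ _ _ (Run.mul 17 14 0 _) (Run.seq _ _ _ _ _ _ _
      (Run.mul 15 17 16 _) (Run.seq _ _ _ _ _ _ _ (Run.mul 9 17 14 _) (Run.seq _ _ _ _ _ _ _
      (Run.mul 9 9 13 _) (Run.seq _ _ _ _ _ _ _ (Run.add 10 0 12 _) h)))))))))))), ?_, ?_, ?_, ?_,
      ?_, ?_, ?_, ?_, ?_⟩
    · simp [Function.update, input]
    · simp [Function.update, input]
    · simp [Function.update, input]
    · simp [Function.update, input]
    · simp [Function.update, input]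
    · simp [Function.update, input]
      ring
    · simp [Function.update, input]
      ring
    · simp [Function.update, input]
    · rfl
  have hb : Base s := ⟨f2, f3, f11, f12⟩
  obtain ⟨t, n, hr, hn, ho, e1, _, hoth⟩ := loop_run σ (36 * N ^ 5) s 0 f1 hb f9
  have hbt : Base t := base_of s t hoth hb
  have e15 : t.r 15 = ((12 * N ^ 3 : ℕ) : ℝ) := by
    rw [hoth 15 (by decide) (by decide) (by decide) (by decide) (by decide)]; exact f15
  have e10 : t.r 10 = N := by
    rw [hoth 10 (by decide) (by decide) (by decide) (by decide) (by decide)]; exact f10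
  rw [zero_add] at e1
  obtain ⟨t', n', hr', hn', ho'⟩ := points_run σ (12 * N ^ 3) N t (36 * N ^ 5) e1 hbt e15 e10 hD
  refine ⟨t', _, hs _ _ _ (Run.seq _ _ _ t _ _ _ hr hr'), by omega, ?_⟩
  rw [ho', ho, fo, List.nil_append]

end

end Pool.Agent.H45.S7
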